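import Mathlib

namespace Pool.Agent.Results.MP_35fef3_co.Gap

open Finset

variable {E : Type} [Fintype E] [DecidableEq E]

/-- `U` is the set of bases of a matroid: nonempty with the basis exchange axiom. -/
def IsBases (U : Finset (Finset E)) : Prop :=
  U.Nonempty ∧ ∀ B ∈ U, ∀ C ∈ U, ∀ x ∈ B \ C, ∃ y ∈ C \ B, insert y (B.erase x) ∈ U

/-- The number of independent sets of size `i`. -/
def f (U : Finset (Finset E)) (i : ℕ) : ℕ :=
  #{I ∈ (univ : Finset E).powersetCard i | ∃ B ∈ U, I ⊆ B}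

/-- The top entry `h_d` of the `h`-vector. -/
def htop (d : ℕ) (U : Finset (Finset E)) : ℤ := ∑ i ∈ range (d + 1), (-1) ^ (d - i) * (f U i : ℤ)

instance (U : Finset (Finset E)) : Decidable (IsBases U) := by unfold IsBases; infer_instance

/-- bases of the direct sum of two parallel classes of size three -/
def M : Finset (Finset (Fin 6)) :=
  {{0, 3}, {0, 4}, {0, 5}, {1, 3}, {1, 4}, {1, 5}, {2, 3}, {2, 4}, {2, 5}}

lemma l1 : ∀ B ∈ M, ∃ a ∈ ({0, 1, 2} : Finset (Fin 6)), ∃ b ∈ ({3, 4, 5} : Finset (Fin 6)),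
    B = {a, b} := by decide +kernel

lemma l2 : ∀ B ∈ M, ∀ C ∈ M, ∀ a ∈ ({0, 1, 2} : Finset (Fin 6)), ∀ b ∈ ({3, 4, 5} : Finset (Fin 6)),
    a ∈ B → b ∈ C → {a, b} = B ∨ ∃ x ∈ B \ C, ∀ y ∈ C \ B, insert y (B.erase x) ∈ M →
      {a, b} = insert y (B.erase x) := by decide +kernel

lemma l3 : ∀ A ∈ ({0, 1, 2} : Finset (Fin 6)).powerset, ∀ B ∈ ({3, 4, 5} : Finset (Fin 6)).powerset,
    htop 2 (image₂ (fun a b => ({a, b} : Finset (Fin 6))) A B) ≠ 3 := by decide +kernel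

lemma l4 : htop 2 M = 4 := by decide +kernel

theorem result : ∃ (n d : ℕ) (M : Finset (Finset (Fin n))), IsBases M ∧ 1 ≤ d ∧
    (∀ B ∈ M, #B = d) ∧ 1 ≤ htop d M ∧ ∀ U ⊆ M, IsBases U → htop d U ≠ htop d M - 1 := by
  refine ⟨6, 2, M, by decide +kernel, by norm_num, by decide +kernel, by rw [l4]; norm_num,
    fun U hU h => ?_⟩
  have e : U = image₂ (fun a b => ({a, b} : Finset (Fin 6)))
      {a ∈ ({0, 1, 2} : Finset (Fin 6)) | ∃ B ∈ U, a ∈ B}
      {a ∈ ({3, 4, 5} : Finset (Fin 6)) | ∃ B ∈ U, a ∈ B} := by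
    ext B
    simp only [mem_image₂, mem_filter]
    constructor
    · intro hB
      obtain ⟨a, ha, b, hb, rfl⟩ := l1 B (hU hB)
      exact ⟨a, ⟨ha, _, hB, by simp⟩, b, ⟨hb, _, hB, by simp⟩, rfl⟩
    · rintro ⟨a, ⟨ha, B, hB, h1⟩, b, ⟨hb, C, hC, h2⟩, rfl⟩
      rcases l2 B (hU hB) C (hU hC) a ha b hb h1 h2 with e | ⟨x, hx, h3⟩
      · exact e ▸ hB
      · obtain ⟨y, hy, h4⟩ := h.2 B hB C hC x hx
        exact h3 y hy (hU h4) ▸ h4
  rw [l4, e]
  exact l3 _ (mem_powerset.mpr (filter_subset _ _)) _ (mem_powerset.mpr (filter_subset _ _))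

end Pool.Agent.Results.MP_35fef3_co.Gap
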